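import Pool.Agent.L5helper32.TC.Stmt

/-!
# The stage without the degree condition (part (ST) of the threshold circuit project of helper32)
-/

set_option autoImplicit false

open Finset

namespace Pool.Agent.L5helper32.TC

/-- an edge is in at most `n` triples -/
theorem card_te_le {n : ℕ} (e : Ed n) :
    (univ.filter fun T : Tr n => te T e.1 = e).card ≤ n := by
  have h : (univ.filter fun T : Tr n => te T e.1 = e).card ≤ (univ : Finset (Fin n)).card := by
    refine Finset.card_le_card_of_injOn (fun T => T (e.1 + 2)) (fun _ _ => mem_coe.2 (mem_univ _)) ?_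
    intro T hT T' hT' hTT
    have h1 : te T e.1 = e := (mem_filter.1 (mem_coe.1 hT)).2
    have h2 : te T' e.1 = e := (mem_filter.1 (mem_coe.1 hT')).2
    have h3 : te T e.1 = te T' e.1 := h1.trans h2.symm
    have h4 : T e.1 = T' e.1 := congrArg (fun x : Ed n => x.2.1) h3
    have h5 : T (e.1 + 1) = T' (e.1 + 1) := congrArg (fun x : Ed n => x.2.2) h3
    have h6 : T (e.1 + 2) = T' (e.1 + 2) := hTT
    obtain ⟨c, u, v⟩ := e
    funext d
    have h8 : ∀ c d : Fin 3, d = c ∨ d = c + 1 ∨ d = c + 2 := by decide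
    rcases h8 c d with h7 | h7 | h7 <;> rw [h7]
    · exact h4
    · exact h5
    · exact h6
  simpa using h

/-- removing edges destroys at most `n` triangles per edge -/
theorem card_tris_le {n : ℕ} (G G0 : Finset (Ed n)) :
    (tris G).card ≤ (tris G0).card + n * (G \ G0).card := by
  classical
  have h1 : tris G ⊆ tris G0 ∪ (G \ G0).biUnion fun e => univ.filter fun T : Tr n => te T e.1 = e := by
    intro T hT
    have hT' : ∀ t, te T t ∈ G := (mem_filter.1 hT).2
    by_cases h : ∀ t, te T t ∈ G0
    · exact mem_union_left _ (mem_filter.2 ⟨mem_univ _, h⟩)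
    · push Not at h
      obtain ⟨t, ht⟩ := h
      refine mem_union_right _ (mem_biUnion.2 ⟨te T t, mem_sdiff.2 ⟨hT' t, ht⟩, ?_⟩)
      exact mem_filter.2 ⟨mem_univ _, rfl⟩
  calc (tris G).card ≤ _ := card_le_card h1
    _ ≤ (tris G0).card + ((G \ G0).biUnion fun e => univ.filter fun T : Tr n => te T e.1 = e).card :=
        card_union_le _ _
    _ ≤ (tris G0).card + ∑ e ∈ G \ G0, (univ.filter fun T : Tr n => te T e.1 = e).card :=
        Nat.add_le_add_left card_biUnion_le _
    _ ≤ (tris G0).card + ∑ _e ∈ G \ G0, n :=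
        Nat.add_le_add_left (sum_le_sum fun e _ => card_te_le e) _
    _ = (tris G0).card + n * (G \ G0).card := by rw [sum_const, smul_eq_mul, mul_comm]

/-- few edges are in more than `D` of the sets -/
theorem card_heavy {E : Type} [DecidableEq E] (G : Finset E) {I : Type} [Fintype I]
    [DecidableEq I] (S : I → Finset E) (D : ℕ) :
    (G \ (G.filter fun e => (univ.filter fun i => e ∈ S i).card ≤ D)).card * (D + 1) ≤
      ∑ i, (S i).card := by
  have h1 : ∀ e ∈ G \ (G.filter fun e => (univ.filter fun i => e ∈ S i).card ≤ D),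
      D + 1 ≤ (univ.filter fun i => e ∈ S i).card := by
    intro e he
    rw [mem_sdiff, mem_filter, not_and] at he
    have := he.2 he.1
    omega
  set H := G \ (G.filter fun e => (univ.filter fun i => e ∈ S i).card ≤ D) with hH
  calc H.card * (D + 1) = ∑ _e ∈ H, (D + 1) := by rw [sum_const, smul_eq_mul]
    _ ≤ ∑ e ∈ H, (univ.filter fun i => e ∈ S i).card := sum_le_sum h1
    _ = ∑ e ∈ H, ∑ i, if e ∈ S i then 1 else 0 := by
        refine sum_congr rfl fun e _ => ?_
        rw [card_filter]
    _ = ∑ i, ∑ e ∈ H, if e ∈ S i then 1 else 0 := sum_comm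
    _ ≤ ∑ i, (S i).card := by
        refine sum_le_sum fun i _ => ?_
        rw [← card_filter]
        exact card_le_card fun e he => (mem_filter.1 he).2

/-- remove the edges which are read by more than `D` gates, apply the stage for bounded degrees -/
theorem stage_of_stage2 (h : Stage2Stmt) : StageStmt := by
  classical
  intro n D hD hn G I _ _ S f hS hG h4
  set G0 := G.filter fun e => (univ.filter fun i => e ∈ S i).card ≤ D with hG0
  have hG0G : G0 ⊆ G := filter_subset _ _
  have hH := card_heavy G S D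
  rw [← hG0] at hH
  have hT := card_tris_le G G0
  set W := ∑ i, (S i).card with hW
  set τ := (tris G).card with hτ
  set τ0 := (tris G0).card with hτ0
  set η := (G \ G0).card with hη
  have h34 : 3 * τ ≤ 4 * τ0 := by
    have h1 : 4 * n * (η * (D + 1)) ≤ D * τ := le_trans (Nat.mul_le_mul_left _ hH) h4
    have h2 : 4 * (n * η) * (D + 1) ≤ τ * (D + 1) := by nlinarith
    have h3 : 4 * (n * η) ≤ τ := Nat.le_of_mul_le_mul_right h2 (Nat.succ_pos D)
    omega
  have hW0 : ∑ i, (S i ∩ G0).card ≤ W := sum_le_sum fun i _ => card_le_card inter_subset_left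
  have h5 : 4 * 10 ^ 47 * D ^ 23 * W ≤ τ := by
    have h6 : D * (4 * 10 ^ 47 * D ^ 23 * W) ≤ D * τ := by
      calc D * (4 * 10 ^ 47 * D ^ 23 * W) = 4 * (10 ^ 47 * D ^ 24) * W := by ring
        _ ≤ 4 * n * W := by
          refine Nat.mul_le_mul_right _ (Nat.mul_le_mul_left _ hn)
        _ ≤ D * τ := h4
    exact Nat.le_of_mul_le_mul_left h6 hD
  have hsize : 12 * (∑ i, (S i ∩ G0).card) * (5 * 10 ^ 7 * D ^ 4) ^ 2 * (2 * 10 ^ 10 * D ^ 5) ^ 3 ≤
      τ0 := by
    have h7 : 12 * (∑ i, (S i ∩ G0).card) * (5 * 10 ^ 7 * D ^ 4) ^ 2 * (2 * 10 ^ 10 * D ^ 5) ^ 3 =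
        2400 * 10 ^ 44 * (D ^ 23 * ∑ i, (S i ∩ G0).card) := by ring
    rw [h7]
    have h8 : D ^ 23 * ∑ i, (S i ∩ G0).card ≤ D ^ 23 * W := Nat.mul_le_mul_left _ hW0
    have h9 : 4 * 10 ^ 47 * (D ^ 23 * W) ≤ τ := by rw [← mul_assoc]; exact h5
    generalize D ^ 23 * W = Z at h8 h9
    generalize D ^ 23 * ∑ i, (S i ∩ G0).card = Z0 at h8
    omega
  have hgate : ∀ i, Gate (S i ∩ G0) D (fun z => f i (ext G0 (fun _ => false) z)) := by
    intro i
    obtain ⟨hloc, hth⟩ := hG i
    refine ⟨?_, ?_⟩
    · intro x y hxy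
      refine hloc _ _ fun e he => ?_
      simp only [ext]
      by_cases h15 : e ∈ G0
      · simp only [h15, if_true]
        exact hxy e (mem_inter.2 ⟨he, h15⟩)
      · simp only [h15, if_false]
    · rcases hth with hth | ⟨w, t, hth⟩
      · exact Or.inl (le_trans (card_le_card inter_subset_left) hth)
      · refine Or.inr ⟨w, t, fun x => ?_⟩
        rw [hth]
        have h16 : ∑ e ∈ S i, w e * (if ext G0 (fun _ => false) x e = true then (1 : ℝ) else 0) =
            ∑ e ∈ S i ∩ G0, w e * (if x e = true then (1 : ℝ) else 0) := by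
          rw [← filter_mem_eq_inter, sum_filter]
          refine sum_congr rfl fun e _ => ?_
          simp only [ext]
          by_cases h15 : e ∈ G0
          · simp [h15]
          · simp [h15]
        rw [h16]
  have hdeg : ∀ e ∈ G0, (univ.filter fun i => e ∈ S i ∩ G0).card ≤ D := by
    intro e he
    refine le_trans (card_le_card ?_) (mem_filter.1 he).2
    intro i hi
    rw [mem_filter] at hi ⊢
    exact ⟨hi.1, (mem_inter.1 hi.2).1⟩
  obtain ⟨G', b, hG'G0, hcard, htri, hdep⟩ := h n D hD G0 I (fun i => S i ∩ G0)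
    (fun i z => f i (ext G0 (fun _ => false) z)) (fun i => inter_subset_right) hgate hdeg hsize
  · refine ⟨G', fun e => if e ∈ G0 then b e else false, hG'G0.trans hG0G, ?_, ?_, ?_⟩
    · rw [← hτ]
      rw [← hτ0] at hcard
      have h10 : 2 * (2 * 10 ^ 10 * D ^ 5) ^ 6 * (tris G').card =
          128 * 10 ^ 60 * (D ^ 30 * (tris G').card) := by ring
      have h11 : 2 * 10 ^ 62 * D ^ 30 * (tris G').card =
          2 * 10 ^ 62 * (D ^ 30 * (tris G').card) := by ring
      rw [h10] at hcard
      rw [h11]
      generalize D ^ 30 * (tris G').card = Z at hcard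
      omega
    · intro T hT1
      refine htri T fun t => ?_
      rcases hT1 t with h12 | ⟨h12, h13⟩
      · exact Or.inl h12
      · by_cases h14 : te T t ∈ G0
        · simp only [h14, if_true] at h13
          exact Or.inr ⟨h14, h13⟩
        · simp only [h14, if_false] at h13
          exact absurd h13 (by simp)
    · intro i
      obtain ⟨o, ho, hz⟩ := hdep i
      refine ⟨o, ho, fun z z' hzz => ?_⟩
      have key : ∀ z : Ed n → Bool, ext G' (fun e => if e ∈ G0 then b e else false) z =
          ext G0 (fun _ => false) (ext G' b z) := by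
        intro z
        funext e
        simp only [ext]
        by_cases h15 : e ∈ G0
        · simp [h15]
        · have h16 : e ∉ G' := fun h17 => h15 (hG'G0 h17)
          simp [h15, h16]
      rw [key z, key z']
      exact hz z z' hzz

end Pool.Agent.L5helper32.TC
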